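import Pool.Agent.Q87.Cox.Plus

set_option autoImplicit false

namespace Pool.Agent.Results.MP_af48a1_al.StrongExchange

open CoxeterSystem Pool.Agent.Q87.Cox Pool.Agent.Q87.Cox.Wplus

universe u v

/-- For every Coxeter system and every `W`-conjugacy class of twisted involutions satisfying the
first displayed condition, `ℓ(rwr) < ℓ(w)` implies `rwr < w` in the Bruhat order. -/
theorem result {B : Type u} {W : Type v} [Group W] {M : CoxeterMatrix B}
    (cs : CoxeterSystem M W) (x₀ : Wplus cs) (h0 : x₀ * x₀ = 1)
    (hQ : ∀ r : W, cs.IsReflection r → ∀ w ∈ cls x₀,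
      (emb r * w * emb r).len = w.len → emb r * w * emb r = w) :
    ∀ r : W, cs.IsReflection r → ∀ w ∈ cls x₀, (emb r * w * emb r).len < w.len →
      le (emb r * w * emb r) w ∧ emb r * w * emb r ≠ w := by
  intro r hr w hw hl
  have hrr : r * r = 1 := hr.mul_self
  refine ⟨⟨(left_conj' hrr w).2, ?_⟩, ?_⟩
  · rcases Wplus.comparable h0 hQ hr hw with h | h
    · have := h.length_le
      unfold len at hl
      omega
    · exact h
  · intro he
    rw [he] at hl
    exact lt_irrefl _ hl

end Pool.Agent.Results.MP_af48a1_al.StrongExchange
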